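import Mathlib

namespace Pool.Agent.H.MP_f651fd_an

open scoped BoundedContinuousFunction ComplexOrder InnerProductSpace

/-- Banach limits on the bounded complex sequences -/
def IsBanachLimit (L : (ℕ →ᵇ ℂ) →ₗ[ℂ] ℂ) : Prop :=
  (∀ f : ℕ →ᵇ ℂ, (∀ n, 0 ≤ f n) → 0 ≤ L f) ∧
  (∀ f g : ℕ →ᵇ ℂ, (∀ n, g n = f (n + 1)) → L g = L f) ∧ L 1 = 1

/-- `A` is the `L`-asymptotic limit of the power bounded operator `T` -/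
def IsAsLim {H : Type*} [NormedAddCommGroup H] [InnerProductSpace ℂ H] (L : (ℕ →ᵇ ℂ) →ₗ[ℂ] ℂ)
    (T A : H →L[ℂ] H) : Prop :=
  (∃ M : ℝ, ∀ n : ℕ, ‖T ^ n‖ ≤ M) ∧
  ∀ (x y : H) (f : ℕ →ᵇ ℂ), (∀ n : ℕ, f n = ⟪(T ^ n) y, (T ^ n) x⟫_ℂ) → ⟪y, A x⟫_ℂ = L f

end Pool.Agent.H.MP_f651fd_an
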