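import Mathlib
import Pool.Agent.H.MP_f651fd_an.Defs

namespace Pool.Agent.H.MP_f651fd_an

open scoped BoundedContinuousFunction ComplexOrder InnerProductSpace

variable {H : Type*} [NormedAddCommGroup H] [InnerProductSpace ℂ H] {L : (ℕ →ᵇ ℂ) →ₗ[ℂ] ℂ}
  {T A : H →L[ℂ] H} {M : ℝ}

lemma pb (hM : ∀ n : ℕ, ‖T ^ n‖ ≤ M) (n : ℕ) (x : H) : ‖(T ^ n) x‖ ≤ M * ‖x‖ :=
  (T ^ n).le_of_opNorm_le (hM n) x

noncomputable def sq (hM : ∀ n : ℕ, ‖T ^ n‖ ≤ M) (B : H →L[ℂ] H) (x y : H) : ℕ →ᵇ ℂ :=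
  .ofNormedAddCommGroupDiscrete (fun n => ⟪(T ^ n) y, B ((T ^ n) x)⟫_ℂ)
    (M * ‖y‖ * (‖B‖ * (M * ‖x‖))) fun n => (norm_inner_le_norm _ _).trans
      (mul_le_mul (pb hM n y) (B.le_opNorm_of_le (pb hM n x)) (norm_nonneg _)
        ((norm_nonneg _).trans (pb hM n y)))

lemma sq_app (hM : ∀ n : ℕ, ‖T ^ n‖ ≤ M) (B : H →L[ℂ] H) (x y : H) (n : ℕ) :
    sq hM B x y n = ⟪(T ^ n) y, B ((T ^ n) x)⟫_ℂ := rfl

lemma inv (hL : IsBanachLimit L) (h : IsAsLim L T A) (n : ℕ) (x y : H) :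
    ⟪(T ^ n) y, A ((T ^ n) x)⟫_ℂ = ⟪y, A x⟫_ℂ := by
  obtain ⟨M, hM⟩ := h.1
  induction n with
  | zero => rfl
  | succ n ih =>
    rw [← ih, h.2 _ _ (sq hM 1 _ _) fun _ => rfl, h.2 _ _ (sq hM 1 _ _) fun _ => rfl]
    refine hL.2.1 _ _ fun k => ?_
    simp only [sq_app, ← mul_apply_eq_comp, ← pow_add, one_mul]
    rw [show k + (n + 1) = k + 1 + n by ring]

lemma Lconst (hL : IsBanachLimit L) (c : ℂ) : L (c • 1) = c := by simp [hL.2.2]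

lemma Lge (hL : IsBanachLimit L) {f : ℕ →ᵇ ℂ} {c : ℂ} (h : ∀ n, c ≤ f n) : c ≤ L f := by
  have := hL.1 (f - c • 1) fun n => by simpa using h n
  rwa [map_sub, Lconst hL, sub_nonneg] at this

lemma Lle (hL : IsBanachLimit L) {f : ℕ →ᵇ ℂ} {c : ℂ} (h : ∀ n, f n ≤ c) : L f ≤ c := by
  have := Lge hL (f := -f) (c := -c) fun n => by simpa using h n
  simpa using this

end Pool.Agent.H.MP_f651fd_an
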